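import Pool.Agent.MP_435b2a_lc.H65.Main

namespace Pool.Agent.Results.MP_435b2a_lc.Undecidable

open Pool.Agent.MP_435b2a_lc Pool.Agent.MP_435b2a_lc.H65

theorem result :
    ∃ (k : ℕ) (M₁ : Mach k), (accepted M₁).IsRegular ∧ IsDCA M₁ ∧ IsDPDA M₁ ∧ IsDPCM M₁ ∧
      ∀ P ∈ ({IsDCM, IsDCA, IsDPDA, IsDPCM} : Set (Mach k → Prop)),
        ¬ ∃ f : Mach k → Bool, Computable f ∧ ∀ M₂ : Mach k, P M₂ →
          (f M₂ = true ↔ (⊤ : Language (Fin k)) = shuffle (accepted M₁) (accepted M₂)) :=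
  main'

end Pool.Agent.Results.MP_435b2a_lc.Undecidable
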